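import Pool.Agent.W586.SK.Stm2

/-!
Project SX, part DIR: spreading lowers an exchangeable log-concave density.
-/

set_option autoImplicit false

namespace Pool.Agent.W474.SX

open MeasureTheory Set Filter
open Pool.Agent.W586.SK (E)
open Pool.Agent.W586.SX

theorem spread {n : ℕ} (g : E n → ℝ) (hg : Sx g) (k l : Fin n) (hkl : k ≠ l) (x : E n)
    (hx : x l ≤ x k) (t : ℝ) (ht : 0 < t) : g (x + t • (ev k - ev l)) ≤ g x := by
  set y : E n := x + t • (ev k - ev l) with hy
  have hD : 0 < x k - x l + 2 * t := by linarith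
  set m : ℝ := t / (x k - x l + 2 * t) with hm
  have hm0 : 0 < m := div_pos ht hD
  have hm1 : m < 1 := by
    rw [hm, div_lt_one hD]
    linarith
  have hmD : m * (x k - x l + 2 * t) = t := by
    rw [hm]
    exact div_mul_cancel₀ t hD.ne'
  have hyj : ∀ j, y j = x j + t * ((if j = k then 1 else 0) - (if j = l then 1 else 0)) := by
    intro j
    simp [hy, ev]
  have hyk : y k = x k + t := by
    rw [hyj]; simp [hkl]
  have hyl : y l = x l - t := by
    rw [hyj]; simp [hkl.symm]; ring
  have hcomb : (1 - m) • y + m • (sw k l y) = x := by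
    ext j
    have h1 : ((1 - m) • y + m • (sw k l y)) j = (1 - m) * y j + m * y (Equiv.swap k l j) := by
      simp [sw_apply]
    rw [h1]
    by_cases hjk : j = k
    · subst hjk
      rw [Equiv.swap_apply_left, hyk, hyl]
      linear_combination (-1 : ℝ) * hmD
    · by_cases hjl : j = l
      · subst hjl
        rw [Equiv.swap_apply_right, hyk, hyl]
        linear_combination hmD
      · rw [Equiv.swap_apply_of_ne_of_ne hjk hjl, hyj]
        simp [hjk, hjl]
        ring
  have hinv : g (sw k l y) = g y := hg.inv (Equiv.swap k l) y (sw k l y) (fun i => sw_apply k l y i)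
  have hlog := hg.logc y (sw k l y) m hm0 hm1
  rw [hcomb, hinv] at hlog
  rcases (hg.nonneg y).eq_or_lt with h0 | hpos
  · rw [← h0]
    exact hg.nonneg x
  · rw [← Real.rpow_add hpos] at hlog
    simpa using hlog

theorem dir : S_DIR := by
  intro n g hg hd k l x hx
  by_cases hkl : k = l
  · subst hkl
    simp
  have h1 : HasDerivAt (fun t : ℝ => x + t • (ev k - ev l)) (ev k - ev l) 0 := by
    simpa using ((hasDerivAt_id (0 : ℝ)).smul_const (ev k - ev l)).const_add x
  have h2 : HasDerivAt (fun t : ℝ => g (x + t • (ev k - ev l))) (fderiv ℝ g x (ev k - ev l)) 0 := by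
    have h3 : HasFDerivAt g (fderiv ℝ g x) (x + (0 : ℝ) • (ev k - ev l)) := by
      simpa using (hd x).hasFDerivAt
    exact h3.comp_hasDerivAt 0 h1
  refine le_of_tendsto h2.tendsto_slope_zero_right ?_
  filter_upwards [self_mem_nhdsWithin] with t ht
  have ht' : 0 < t := ht
  have h4 := spread g hg k l hkl x hx t ht'
  simp only [zero_add, zero_smul, add_zero, smul_eq_mul]
  exact mul_nonpos_of_nonneg_of_nonpos (inv_nonneg.2 ht'.le) (sub_nonpos.2 h4)

end Pool.Agent.W474.SX
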